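import Pool.Agent.H57.CM.Targets
import Pool.Agent.H57.LH.ExRows

/-!
# Homogeneity of lexicographic products (MP_6ab439_lc): row LHM
-/

set_option autoImplicit false
set_option linter.unusedVariables false

namespace Pool.Agent.H46.CM

open Pool.Agent.H68.BP Pool.Agent.H58.SF Pool.Agent.H53.NR
open Pool.Agent.H53.GC (strOn sigOf)
open Pool.Agent.H57.AR (tp ty Ty)
open Pool.Agent.H57.LH (Hmg tp_iff)
open Pool.Agent.H44.KR (TpOn)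
open Pool.Agent.H57.CM Pool.Agent.H72.CH
open Function

section

variable {V W : Type} {ρ : Sig} {𝔹 : Str ρ V}

theorem tp_of_on {A : Set W} {x y : W → V} (h : TpOn 𝔹 A x y) :
    tp 𝔹 (fun a : A => x a.1) = tp 𝔹 (fun a : A => y a.1) :=
  tp_iff.2 ⟨fun a b => h.1 a.1 a.2 b.1 b.2, fun l z => h.2 l (fun i => (z i).1) fun i => (z i).2⟩

theorem on_of_tp {A : Set W} {x y : W → V}
    (h : tp 𝔹 (fun a : A => x a.1) = tp 𝔹 (fun a : A => y a.1)) : TpOn 𝔹 A x y :=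
  ⟨fun a ha b hb => (tp_iff.1 h).1 ⟨a, ha⟩ ⟨b, hb⟩,
    fun l z hz => (tp_iff.1 h).2 l (fun i => ⟨z i, hz i⟩)⟩

end

theorem pf_LHM (hLTP : T_LTP) : T_LHM := by
  intro τ₁ τ₂ V₁ V₂ 𝔹₁ 𝔹₂ har h₁ h₂ W _ A x y hxy
  obtain ⟨hA1, hA2⟩ := (hLTP τ₁ τ₂ V₁ V₂ A 𝔹₁ 𝔹₂ har (fun a => x a.1) (fun a => y a.1)).1
    (tp_of_on hxy)
  -- the first coordinates
  obtain ⟨x₁, hx₁, hx₁A⟩ := h₁ W A (fun a => (x a).1) (fun a => (y a).1) (on_of_tp hA1)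
  -- the second coordinates
  have hv : ∀ v : V₁, ∃ x₂ : {w : W // (x w).1 = v} → V₂,
      tp 𝔹₂ x₂ = tp 𝔹₂ (fun w : {w : W // (x w).1 = v} => (x w.1).2) ∧
      ∀ a ∈ {w : {w : W // (x w).1 = v} | w.1 ∈ A}, x₂ a = (y a.1).2 := by
    intro v
    refine h₂ {w : W // (x w).1 = v} {w | w.1 ∈ A} (fun w => (x w.1).2) (fun w => (y w.1).2) ?_
    constructor
    · intro a ha b hb
      exact (tp_iff.1 (hA2 ⟨a.1, ha⟩)).1 ⟨⟨a.1, ha⟩, rfl⟩ ⟨⟨b.1, hb⟩, b.2.trans a.2.symm⟩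
    · intro l z hz
      have i₀ : Fin (τ₂.ar l) := ⟨0, har l⟩
      exact (tp_iff.1 (hA2 ⟨(z i₀).1, hz i₀⟩)).2 l
        (fun i => ⟨⟨(z i).1, hz i⟩, (z i).2.trans (z i₀).2.symm⟩)
  choose x₂ hx₂ hx₂A using hv
  have htr : ∀ (w : W) (v : V₁) (h : (x w).1 = v), x₂ (x w).1 ⟨w, rfl⟩ = x₂ v ⟨w, h⟩ := by
    intro w v h
    subst h
    rfl
  refine ⟨fun w => (x₁ w, x₂ (x w).1 ⟨w, rfl⟩), ?_, fun a ha => ?_⟩
  · refine ((hLTP τ₁ τ₂ V₁ V₂ W 𝔹₁ 𝔹₂ har x _).2 ⟨hx₁.symm, fun a₀ => ?_⟩).symm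
    rw [← hx₂ (x a₀).1]
    refine congrArg (tp 𝔹₂) (funext fun a => ?_)
    exact (htr a.1 _ a.2).symm
  · exact Prod.ext (hx₁A a ha) (hx₂A (x a).1 ⟨a, rfl⟩ ha)

end Pool.Agent.H46.CM
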